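import Mathlib
import Pool.Agent.Q291.Hyperopic

/-!
# The hyperopic cop number of a join can exceed `m(G) + m(J)`

Let `G` be the path with three vertices, and let `J` be the join of a triangle and two disjoint edges.
Then `m(G) ≤ 1` and `m(J) ≤ 2`, but three cops do not win the hyperopic game on the join of `G`
and `J`.
-/

set_option autoImplicit false

namespace Pool.Agent.Results.MP_689627_co.JoinExceeds

open Pool.Agent.Q291.Hyperopic

/-- The path `0 - 2 - 1`. -/
def gadj (a b : Fin 3) : Bool := (a == 2 && b != 2) || (b == 2 && a != 2)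

/-- The path with three vertices. -/
def G : SimpleGraph (Fin 3) where
  Adj a b := gadj a b = true
  symm := ⟨by decide⟩
  loopless := ⟨by decide⟩

/-- The edges of `J`: the vertices `4, 5, 6` are adjacent to all other vertices, and `0, 1` and
`2, 3` are adjacent. -/
def edges : List (Fin 7 × Fin 7) :=
  [(0, 1), (0, 4), (0, 5), (0, 6), (1, 4), (1, 5), (1, 6), (2, 3), (2, 4), (2, 5), (2, 6),
   (3, 4), (3, 5), (3, 6), (4, 5), (4, 6), (5, 6)]

/-- The adjacency of `J`. -/
def adj (a b : Fin 7) : Bool := edges.contains (a, b) || edges.contains (b, a)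

/-- The join of a triangle and two disjoint edges. -/
def J : SimpleGraph (Fin 7) where
  Adj a b := adj a b = true
  symm := ⟨by decide⟩
  loopless := ⟨by decide⟩

/-! ## Three cops do not win on the join -/

/-- The adjacency of the join. -/
def jadj : Fin 3 ⊕ Fin 7 → Fin 3 ⊕ Fin 7 → Bool
  | Sum.inl a, Sum.inl b => gadj a b
  | Sum.inr a, Sum.inr b => adj a b
  | _, _ => true

lemma jadj_iff (v w : Fin 3 ⊕ Fin 7) : (join G J).Adj v w ↔ jadj v w = true := by
  rcases v with v | v <;> rcases w with w | w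
  · exact Iff.rfl
  · exact ⟨fun _ => rfl, fun _ => trivial⟩
  · exact ⟨fun _ => rfl, fun _ => trivial⟩
  · exact Iff.rfl

/-- The number of a vertex. -/
def num : Fin 3 ⊕ Fin 7 → ℕ
  | Sum.inl a => a.val
  | Sum.inr b => 3 + b.val

lemma num_inj : Function.Injective num := by
  have h : ∀ v w : Fin 3 ⊕ Fin 7, num v = num w → v = w := by decide +kernel
  exact fun v w hvw => h v w hvw

/-- All vertices. -/
def vs : List (Fin 3 ⊕ Fin 7) :=
  [Sum.inl 0, Sum.inl 1, Sum.inl 2, Sum.inr 0, Sum.inr 1, Sum.inr 2, Sum.inr 3, Sum.inr 4, Sum.inr 5,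
   Sum.inr 6]

/-- The closed neighbourhoods. -/
def cl (v : Fin 3 ⊕ Fin 7) : ℕ := [1021, 1022, 1023, 927, 927, 999, 999, 1023, 1023, 1023].getD (num v) 0

lemma cl_eq : ∀ v w : Fin 3 ⊕ Fin 7, (cl v).testBit (num w) = (decide (w = v) || jadj v w) := by
  decide +kernel

/-- For each set `D` of at most three vertices: the set, its common neighbourhood, and a set `F` which
contains `D`.  If the cops are on `D` and the robber went from a vertex `r` outside of `F` to a common
neighbour of `D`, then the cops cannot win. -/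
def T : List (ℕ × ℕ × ℕ) :=
  [(1, 1020, 1), (2, 1020, 2), (4, 1019, 4), (8, 919, 8), (16, 911, 16), (32, 967, 32),
   (64, 935, 64), (128, 895, 128), (256, 767, 256), (512, 511, 512), (3, 1020, 3), (5, 1016, 5),
   (9, 916, 9), (17, 908, 17), (33, 964, 33), (65, 932, 65), (129, 892, 129), (257, 764, 257),
   (513, 508, 513), (6, 1016, 6), (10, 916, 10), (18, 908, 18), (34, 964, 34), (66, 932, 66),
   (130, 892, 130), (258, 764, 258), (514, 508, 514), (12, 915, 12), (20, 907, 20),
   (36, 963, 36), (68, 931, 68), (132, 891, 132), (260, 763, 260), (516, 507, 516),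
   (24, 903, 24), (40, 903, 40), (72, 903, 72), (136, 791, 136), (264, 663, 264),
   (520, 407, 520), (48, 903, 48), (80, 903, 80), (144, 783, 144), (272, 655, 272),
   (528, 399, 528), (96, 903, 96), (160, 839, 160), (288, 711, 288), (544, 455, 544),
   (192, 807, 192), (320, 679, 320), (576, 423, 576), (384, 639, 384), (640, 383, 640),
   (768, 255, 768), (7, 1016, 7), (11, 916, 11), (19, 908, 19), (35, 964, 35), (67, 932, 67),
   (131, 892, 131), (259, 764, 259), (515, 508, 515), (13, 912, 109), (21, 904, 117),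
   (37, 960, 61), (69, 928, 93), (133, 888, 133), (261, 760, 261), (517, 504, 517),
   (25, 900, 25), (41, 900, 41), (73, 900, 73), (137, 788, 233), (265, 660, 361),
   (521, 404, 617), (49, 900, 49), (81, 900, 81), (145, 780, 241), (273, 652, 369),
   (529, 396, 625), (97, 900, 97), (161, 836, 185), (289, 708, 313), (545, 452, 569),
   (193, 804, 217), (321, 676, 345), (577, 420, 601), (385, 636, 385), (641, 380, 641),
   (769, 252, 769), (14, 912, 110), (22, 904, 118), (38, 960, 62), (70, 928, 94),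
   (134, 888, 134), (262, 760, 262), (518, 504, 518), (26, 900, 26), (42, 900, 42),
   (74, 900, 74), (138, 788, 234), (266, 660, 362), (522, 404, 618), (50, 900, 50),
   (82, 900, 82), (146, 780, 242), (274, 652, 370), (530, 396, 626), (98, 900, 98),
   (162, 836, 186), (290, 708, 314), (546, 452, 570), (194, 804, 218), (322, 676, 346),
   (578, 420, 602), (386, 636, 386), (642, 380, 642), (770, 252, 770), (28, 899, 28),
   (44, 899, 44), (76, 899, 76), (140, 787, 140), (268, 659, 268), (524, 403, 524),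
   (52, 899, 52), (84, 899, 84), (148, 779, 148), (276, 651, 276), (532, 395, 532),
   (100, 899, 100), (164, 835, 164), (292, 707, 292), (548, 451, 548), (196, 803, 196),
   (324, 675, 324), (580, 419, 580), (388, 635, 388), (644, 379, 644), (772, 251, 772),
   (56, 903, 56), (88, 903, 88), (152, 775, 152), (280, 647, 280), (536, 391, 536),
   (104, 903, 104), (168, 775, 168), (296, 647, 296), (552, 391, 552), (200, 775, 200),
   (328, 647, 328), (584, 391, 584), (392, 535, 392), (648, 279, 648), (776, 151, 776),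
   (112, 903, 112), (176, 775, 176), (304, 647, 304), (560, 391, 560), (208, 775, 208),
   (336, 647, 336), (592, 391, 592), (400, 527, 400), (656, 271, 656), (784, 143, 784),
   (224, 775, 224), (352, 647, 352), (608, 391, 608), (416, 583, 416), (672, 327, 672),
   (800, 199, 800), (448, 551, 448), (704, 295, 704), (832, 167, 832), (896, 127, 896)]

/-- The check of the table: the common neighbours of `D` in the closed neighbourhood of `r` are not all
contained in a set `F'` of the table. -/
def check : Bool :=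
  T.all fun e => vs.all fun r => e.2.2.testBit (num r) ||
    T.all fun e' => (e.2.1 &&& cl r) &&& e'.2.2 != (e.2.1 &&& cl r)

lemma check_eq : check = true := by decide +kernel

/-- The set of the vertices `a`, `b`, `c`. -/
def mask (a b c : Fin 3 ⊕ Fin 7) : ℕ := 2 ^ num a ||| 2 ^ num b ||| 2 ^ num c

lemma exists_entry : ∀ a b c : Fin 3 ⊕ Fin 7, (T.any fun e => e.1 == mask a b c) = true := by
  decide +kernel

lemma entry_prop : (T.all fun e => decide (e.2.1 < 1024) &&
    (vs.all fun v => e.2.1.testBit (num v) ==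
      vs.all fun w => !e.1.testBit (num w) || jadj w v) &&
    (vs.all fun v => !e.1.testBit (num v) || e.2.2.testBit (num v)) &&
    (vs.any fun v => !e.2.2.testBit (num v))) = true := by
  decide +kernel

lemma mem_vs (v : Fin 3 ⊕ Fin 7) : v ∈ vs := by
  rcases v with v | v <;> fin_cases v <;> simp [vs]

lemma num_surj : ∀ j < 10, ∃ v : Fin 3 ⊕ Fin 7, num v = j := by decide

lemma testBit_mask (a b c v : Fin 3 ⊕ Fin 7) :
    (mask a b c).testBit (num v) = true ↔ a = v ∨ b = v ∨ c = v := by
  rw [mask, Nat.testBit_or, Nat.testBit_or, Nat.testBit_two_pow, Nat.testBit_two_pow,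
    Nat.testBit_two_pow, Bool.or_eq_true, Bool.or_eq_true, decide_eq_true_eq, decide_eq_true_eq,
    decide_eq_true_eq, num_inj.eq_iff, num_inj.eq_iff, num_inj.eq_iff, or_assoc]

lemma entry_spec (d : Fin 3 → Fin 3 ⊕ Fin 7) : ∃ e ∈ T,
    e.2.1 < 1024 ∧ (∀ v, e.2.1.testBit (num v) = true ↔ ∀ i, (join G J).Adj (d i) v) ∧
    (∀ i, e.2.2.testBit (num (d i)) = true) ∧ ∃ v, e.2.2.testBit (num v) = false := by
  have h1 := exists_entry (d 0) (d 1) (d 2)
  rw [List.any_eq_true] at h1
  obtain ⟨e, he, h1⟩ := h1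
  rw [beq_iff_eq] at h1
  have h2 := entry_prop
  simp only [List.all_eq_true, List.any_eq_true, Bool.and_eq_true, decide_eq_true_eq, beq_iff_eq,
    Bool.or_eq_true, Bool.not_eq_true'] at h2
  obtain ⟨⟨⟨h3, h4⟩, h5⟩, v, -, h6⟩ := h2 e he
  have hd : ∀ v, e.1.testBit (num v) = true ↔ ∃ i, d i = v := by
    intro v
    rw [h1, testBit_mask]
    constructor
    · rintro (h | h | h)
      · exact ⟨0, h⟩
      · exact ⟨1, h⟩
      · exact ⟨2, h⟩
    · rintro ⟨i, hi⟩
      fin_cases i
      · exact Or.inl hi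
      · exact Or.inr (Or.inl hi)
      · exact Or.inr (Or.inr hi)
  refine ⟨e, he, h3, fun v => ?_, fun i => ?_, v, h6⟩
  · rw [h4 v (mem_vs v)]
    simp only [List.all_eq_true, Bool.or_eq_true, Bool.not_eq_true']
    constructor
    · intro h i
      rcases h (d i) (mem_vs _) with h | h
      · rw [(hd (d i)).2 ⟨i, rfl⟩] at h
        exact Bool.noConfusion h
      · exact (jadj_iff _ _).2 h
    · intro h w _
      by_cases hw : e.1.testBit (num w) = true
      · obtain ⟨i, rfl⟩ := (hd w).1 hw
        exact Or.inr ((jadj_iff _ _).1 (h i))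
      · exact Or.inl (by simpa using hw)
  · rcases h5 (d i) (mem_vs _) with h | h
    · rw [(hd (d i)).2 ⟨i, rfl⟩] at h
      exact Bool.noConfusion h
    · exact h

/-- The consequence of the check. -/
lemma exists_free {e e' : ℕ × ℕ × ℕ} (he : e ∈ T) (he' : e' ∈ T) (hlt : e.2.1 < 1024)
    {r : Fin 3 ⊕ Fin 7} (hr : e.2.2.testBit (num r) = false) :
    ∃ v, e.2.1.testBit (num v) = true ∧ (v = r ∨ (join G J).Adj r v) ∧
      e'.2.2.testBit (num v) = false := by
  have h := check_eq
  simp only [check, List.all_eq_true, Bool.or_eq_true, bne_iff_ne] at h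
  rcases h e he r (mem_vs r) with h | h
  · rw [hr] at h
    exact Bool.noConfusion h
  by_contra hcon
  push Not at hcon
  apply h e' he'
  apply Nat.eq_of_testBit_eq
  intro j
  rw [Nat.testBit_and]
  by_cases hj : (e.2.1 &&& cl r).testBit j = true
  · rw [hj, Bool.true_and]
    rw [Nat.testBit_and, Bool.and_eq_true] at hj
    have hj10 : j < 10 := by
      by_contra hj10
      have : e.2.1 < 2 ^ j := lt_of_lt_of_le hlt (by
        calc 1024 = 2 ^ 10 := by norm_num
          _ ≤ 2 ^ j := Nat.pow_le_pow_right (by norm_num) (by omega))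
      rw [Nat.testBit_lt_two_pow this] at hj
      exact Bool.noConfusion hj.1
    obtain ⟨v, rfl⟩ := num_surj j hj10
    have hv : v = r ∨ (join G J).Adj r v := by
      have h2 := hj.2
      rw [cl_eq, Bool.or_eq_true, decide_eq_true_eq, ← jadj_iff] at h2
      exact h2
    have h3 := hcon v hj.1 hv
    simpa using h3
  · rw [Bool.not_eq_true] at hj
    rw [hj, Bool.false_and]

lemma not_wins {c : Fin 3 → Fin 3 ⊕ Fin 7} {B : Set (Fin 3 ⊕ Fin 7)} (hw : Wins (join G J) c B) :
    ∀ e ∈ T, e.2.1 < 1024 → (∀ v, e.2.1.testBit (num v) = true ↔ ∀ i, (join G J).Adj (c i) v) →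
      ∀ r, e.2.2.testBit (num r) = false →
        (∀ v, (∀ i, (join G J).Adj (c i) v) → (v = r ∨ (join G J).Adj r v) → v ∈ B) → False := by
  induction hw with
  | step c B d _ _ ih =>
    intro e he hlt hI r hr hB
    obtain ⟨e', he', hlt', hI', hD', -⟩ := entry_spec d
    obtain ⟨r', hr'I, hrr', hr'F⟩ := exists_free he he' hlt hr
    have hr'B : r' ∈ B := hB r' ((hI r').1 hr'I) hrr'
    have hdr' : ∀ i, d i ≠ r' := by
      intro i hi
      have := hD' i
      rw [hi, hr'F] at this
      exact Bool.noConfusion this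
    have hsub : ∀ v, (∀ i, (join G J).Adj (d i) v) → (v = r' ∨ (join G J).Adj r' v) →
        v ∈ next (join G J) d B (obs (join G J) d r') none :=
      fun v hv hrv => mem_next_none hr'B hdr' hv hrv
    obtain ⟨v, hvI, hrv, -⟩ := exists_free he' he' hlt' hr'F
    exact ih _ _ ⟨v, hsub v ((hI' v).1 hvI) hrv⟩ e' he' hlt' hI' r' hr'F hsub

lemma not_copsWin : ¬ CopsWin (join G J) 3 := by
  rintro ⟨c, hc⟩
  obtain ⟨e, he, hlt, hI, -, r, hr⟩ := entry_spec c
  obtain ⟨v, hvI, -, -⟩ := exists_free he he hlt hr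
  have hv := mem_start_none ((hI v).1 hvI)
  exact not_wins (hc none ⟨v, hv⟩) e he hlt hI r hr fun v hv _ => mem_start_none hv

/-! ## Two cops win on `J` -/

/-- The winning strategy: positions of the cops, possible positions of the robber, number of rounds,
next positions of the cops. -/
def S : List ((Fin 7 × Fin 7) × List (Fin 7) × ℕ × (Fin 7 × Fin 7)) :=
  [((0, 4), [1, 5, 6], 3, (5, 6)), ((5, 6), [0, 1, 4], 2, (2, 4)), ((0, 4), [2], 1, (0, 2)),
   ((0, 4), [3], 1, (0, 3)), ((2, 4), [0], 1, (2, 0)), ((2, 4), [1], 1, (2, 1)),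
   ((2, 4), [5, 6], 1, (5, 6))]

/-- All vertices of `J`. -/
def ws : List (Fin 7) := [0, 1, 2, 3, 4, 5, 6]

/-- What the cops at `a` and `b` see of the robber at `r`. -/
def see (a b r : Fin 7) : Option (Fin 7) := if adj a r && adj b r then none else some r

/-- The possible positions after a round. -/
def nx (a b : Fin 7) (B : List (Fin 7)) (o₁ o₂ : Option (Fin 7)) : List (Fin 7) :=
  ws.filter fun r' => a != r' && b != r' && see a b r' == o₂ &&
    B.any fun r => a != r && b != r && see a b r == o₁ && (r' == r || adj r r')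

/-- All observations. -/
def os : List (Option (Fin 7)) := none :: ws.map some

/-- The check of the strategy. -/
def checkS : Bool :=
  S.all fun e => (e.2.2.2.1 == e.1.1 || adj e.1.1 e.2.2.2.1) &&
    (e.2.2.2.2 == e.1.2 || adj e.1.2 e.2.2.2.2) &&
    os.all fun o₁ => os.all fun o₂ => (nx e.2.2.2.1 e.2.2.2.2 e.2.1 o₁ o₂).isEmpty ||
      S.any fun e' => e'.1 == e.2.2.2 && e'.2.2.1 < e.2.2.1 &&
        (nx e.2.2.2.1 e.2.2.2.2 e.2.1 o₁ o₂).all fun r => e'.2.1.contains r

lemma checkS_eq : checkS = true := by decide +kernel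

lemma obs_eq (d : Fin 2 → Fin 7) (r : Fin 7) : obs J d r = see (d 0) (d 1) r := by
  unfold obs see
  by_cases h : ∀ i, J.Adj (d i) r
  · rw [if_pos h, if_pos]
    have h0 : adj (d 0) r = true := h 0
    have h1 : adj (d 1) r = true := h 1
    rw [h0, h1]
    rfl
  · rw [if_neg h, if_neg]
    intro h'
    rw [Bool.and_eq_true] at h'
    apply h
    intro i
    fin_cases i
    · exact h'.1
    · exact h'.2

lemma mem_ws (r : Fin 7) : r ∈ ws := by revert r; decide

lemma mem_os (o : Option (Fin 7)) : o ∈ os := by revert o; decide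

lemma mem_nx {d : Fin 2 → Fin 7} {B : List (Fin 7)} {o₁ o₂ : Option (Fin 7)} {r' : Fin 7}
    (h : r' ∈ next J d {r | r ∈ B} o₁ o₂) : r' ∈ nx (d 0) (d 1) B o₁ o₂ := by
  obtain ⟨h1, h2, r, hr, h3, h4, h5⟩ := h
  rw [obs_eq] at h2 h4
  simp only [nx, List.mem_filter, Bool.and_eq_true, bne_iff_ne, beq_iff_eq, List.any_eq_true,
    Bool.or_eq_true]
  exact ⟨mem_ws r', ⟨⟨h1 0, h1 1⟩, h2⟩, r, hr, ⟨⟨h3 0, h3 1⟩, h4⟩, h5⟩

lemma wins_S : ∀ (n : ℕ) (e : (Fin 7 × Fin 7) × List (Fin 7) × ℕ × (Fin 7 × Fin 7)), e ∈ S →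
    e.2.2.1 = n → Wins J ![e.1.1, e.1.2] {r | r ∈ e.2.1} := by
  intro n
  induction n using Nat.strong_induction_on with
  | _ n ih =>
    intro e he hn
    have h := checkS_eq
    simp only [checkS, List.all_eq_true, Bool.and_eq_true, Bool.or_eq_true, beq_iff_eq,
      List.any_eq_true, decide_eq_true_eq, List.contains_iff_mem, List.isEmpty_iff] at h
    obtain ⟨⟨hm0, hm1⟩, hall⟩ := h e he
    refine Wins.step _ _ ![e.2.2.2.1, e.2.2.2.2] ?_ ?_
    · intro i
      fin_cases i
      · exact hm0
      · exact hm1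
    · intro o₁ o₂ hne
      rcases hall o₁ (mem_os o₁) o₂ (mem_os o₂) with h0 | ⟨e', he', ⟨h1, h2⟩, h3⟩
      · obtain ⟨r, hr⟩ := hne
        have h4 := mem_nx hr
        have h5 : r ∈ nx e.2.2.2.1 e.2.2.2.2 e.2.1 o₁ o₂ := h4
        rw [h0] at h5
        exact absurd h5 List.not_mem_nil
      · have h6 := ih e'.2.2.1 (by omega) e' he' rfl
        rw [h1] at h6
        exact h6.mono _ fun r hr => h3 r (mem_nx hr)

lemma copsWin_J : CopsWin J 2 := by
  refine ⟨![0, 4], fun o hne => ?_⟩
  have hst : ∀ o ∈ os, (ws.filter fun r => (0 : Fin 7) != r && (4 : Fin 7) != r && see 0 4 r == o).isEmpty ||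
      S.any fun e => e.1 == ((0 : Fin 7), (4 : Fin 7)) &&
        (ws.filter fun r => (0 : Fin 7) != r && (4 : Fin 7) != r && see 0 4 r == o).all
          fun r => e.2.1.contains r := by decide +kernel
  have hmem : ∀ r, r ∈ start J ![0, 4] o →
      r ∈ ws.filter fun r => (0 : Fin 7) != r && (4 : Fin 7) != r && see 0 4 r == o := by
    intro r hr
    obtain ⟨h1, h2⟩ := hr
    rw [obs_eq] at h2
    simp only [List.mem_filter, Bool.and_eq_true, bne_iff_ne, beq_iff_eq]
    exact ⟨mem_ws r, ⟨h1 0, h1 1⟩, h2⟩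
  have h := hst o (mem_os o)
  simp only [Bool.or_eq_true, Bool.and_eq_true, List.isEmpty_iff, List.any_eq_true, beq_iff_eq,
    List.all_eq_true, List.contains_iff_mem] at h
  rcases h with h0 | ⟨e, he, h1, h2⟩
  · obtain ⟨r, hr⟩ := hne
    have h4 := hmem r hr
    rw [h0] at h4
    exact absurd h4 List.not_mem_nil
  · have h6 := wins_S _ e he rfl
    rw [h1] at h6
    exact h6.mono _ fun r hr => h2 r (hmem r hr)

/-! ## The result -/

/-- `m(X)` is the minimum of the hyperopic cop number and of `Υ`. -/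
noncomputable def m {V : Type} (X : SimpleGraph V) : ℕ := min (cH X) (Upsilon X)

lemma m_G : m G ≤ 1 := by
  refine (min_le_right _ _).trans (Nat.sInf_le ⟨{0}, by simp, by simp, ?_⟩)
  have h : {w | ∀ v ∈ ({0} : Finset (Fin 3)), G.Adj v w} ⊆ {2} := by
    intro w hw
    have h1 : gadj 0 w = true := hw 0 (by simp)
    have h2 : ∀ w : Fin 3, gadj 0 w = true → w = 2 := by decide
    exact h2 w h1
  calc Set.ncard {w | ∀ v ∈ ({0} : Finset (Fin 3)), G.Adj v w} ≤ Set.ncard {(2 : Fin 3)} :=
        Set.ncard_le_ncard h (Set.finite_singleton _)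
    _ = 1 := Set.ncard_singleton _
    _ ≤ _ := by simp

lemma m_J : m J ≤ 2 := (min_le_left _ _).trans (Nat.sInf_le copsWin_J)

lemma cH_join : 4 ≤ cH (join G J) := lt_cH not_copsWin

lemma G_connected : G.Connected := by
  have h0 : G.Reachable 2 0 := SimpleGraph.Adj.reachable (show gadj 2 0 = true by decide)
  have h1 : G.Reachable 2 1 := SimpleGraph.Adj.reachable (show gadj 2 1 = true by decide)
  refine SimpleGraph.connected_iff_exists_forall_reachable _ |>.2 ⟨2, fun v => ?_⟩
  fin_cases v
  · exact h0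
  · exact h1
  · exact SimpleGraph.Reachable.refl _

lemma J_connected : J.Connected := by
  have h : ∀ v : Fin 7, v = 4 ∨ adj 4 v = true := by decide
  refine SimpleGraph.connected_iff_exists_forall_reachable _ |>.2 ⟨4, fun v => ?_⟩
  rcases h v with rfl | hv
  · exact SimpleGraph.Reachable.refl _
  · exact SimpleGraph.Adj.reachable (show J.Adj 4 v from hv)

/-- There are connected graphs `G` and `J` with `c_H(G ∨ J) > m(G) + m(J)`. -/
theorem result : ∃ (G : SimpleGraph (Fin 3)) (J : SimpleGraph (Fin 7)),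
    G.Connected ∧ J.Connected ∧ m G + m J ≤ 3 ∧ 4 ≤ cH (join G J) :=
  ⟨G, J, G_connected, J_connected, Nat.add_le_add m_G m_J, cH_join⟩

end Pool.Agent.Results.MP_689627_co.JoinExceeds
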